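import Mathlib

/-!
# H-eigenvalues of odd order symmetric `B₀` tensors

Q1: there is a symmetric `B₀` tensor of order `3` and dimension `2` without H-eigenvalues.
Q2: every H-eigenvalue of a symmetric `B₀` tensor of odd order is nonnegative.
-/

set_option autoImplicit false

namespace Pool.Agent.Results.MP_9e9eb1_al.OddBZero

open Finset

/-- Real tensors of order `k + 1` and dimension `n`. -/
abbrev Tensor (k n : ℕ) := (Fin (k + 1) → Fin n) → ℝ

/-- Entries are unchanged under every permutation of the indices. -/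
def IsSymm {k n : ℕ} (T : Tensor k n) : Prop :=
  ∀ (σ : Equiv.Perm (Fin (k + 1))) (w : Fin (k + 1) → Fin n), T (w ∘ σ) = T w

/-- The sum of the entries of the `i`-th row. -/
noncomputable def rowSum {k n : ℕ} (T : Tensor k n) (i : Fin n) : ℝ :=
  ∑ v : Fin k → Fin n, T (Fin.cons i v)

/-- `B₀` tensors. -/
def IsBZero {k n : ℕ} (T : Tensor k n) : Prop :=
  ∀ i : Fin n, 0 ≤ rowSum T i ∧
    ∀ v : Fin k → Fin n, v ≠ (fun _ => i) → T (Fin.cons i v) ≤ rowSum T i / (n : ℝ) ^ k

/-- The vector `T x ^ k`, where `k + 1` is the order of `T`. -/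
noncomputable def app {k n : ℕ} (T : Tensor k n) (x : Fin n → ℝ) (i : Fin n) : ℝ :=
  ∑ v : Fin k → Fin n, T (Fin.cons i v) * ∏ a, x (v a)

/-- The number `lam` is an eigenvalue of `T` with a real eigenvector. -/
def IsHEigenvalue {k n : ℕ} (T : Tensor k n) (lam : ℂ) : Prop :=
  ∃ x : Fin n → ℝ, x ≠ 0 ∧ ∀ i, (app T x i : ℂ) = lam * (x i : ℂ) ^ k

/-! ### Q1 -/

/-- The example: the entry depends on the number of indices equal to the second one. -/
noncomputable def ex : Tensor 2 2 := fun w =>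
  if ∑ a, (w a : ℕ) = 0 then 10 else if ∑ a, (w a : ℕ) = 1 then -1 else
    if ∑ a, (w a : ℕ) = 2 then 1 else 3

theorem ex_symm : IsSymm ex := by
  intro σ w
  have h : ∑ a, ((w ∘ σ) a : ℕ) = ∑ a, (w a : ℕ) := Equiv.sum_comp σ fun a => (w a : ℕ)
  simp only [ex, h]

theorem sum_two (g : (Fin 2 → Fin 2) → ℝ) :
    ∑ v, g v = g ![0, 0] + g ![0, 1] + (g ![1, 0] + g ![1, 1]) := by
  rw [← Equiv.sum_comp (finTwoArrowEquiv (Fin 2)).symm g, Fintype.sum_prod_type]
  simp [Fin.sum_univ_two, finTwoArrowEquiv]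

theorem row0 : rowSum ex 0 = 9 := by
  rw [rowSum, sum_two]
  simp [ex, Fin.sum_univ_succ, Fin.cons]
  norm_num

theorem row1 : rowSum ex 1 = 4 := by
  rw [rowSum, sum_two]
  simp [ex, Fin.sum_univ_succ, Fin.cons]
  norm_num

theorem ex_le (w : Fin 3 → Fin 2) (h : ∃ a b, w a ≠ w b) : ex w ≤ 1 := by
  unfold ex
  split_ifs with h0 h1 h2
  · exfalso
    obtain ⟨a, b, hab⟩ := h
    have : ∀ a, (w a : ℕ) = 0 := by simpa using h0
    exact hab (Fin.ext ((this a).trans (this b).symm))
  · norm_num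
  · norm_num
  · exfalso
    obtain ⟨a, b, hab⟩ := h
    rw [Fin.sum_univ_three] at h0 h1 h2
    have l0 : (w 0 : ℕ) < 2 := (w 0).2
    have l1 : (w 1 : ℕ) < 2 := (w 1).2
    have l2 : (w 2 : ℕ) < 2 := (w 2).2
    have : ∀ a, (w a : ℕ) = 1 := by
      intro a
      fin_cases a
      · change (w 0 : ℕ) = 1; omega
      · change (w 1 : ℕ) = 1; omega
      · change (w 2 : ℕ) = 1; omega
    exact hab (Fin.ext ((this a).trans (this b).symm))

theorem ex_bzero : IsBZero ex := by
  intro i
  have hne : ∀ v : Fin 2 → Fin 2, v ≠ (fun _ => i) →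
      ∃ a b, (Fin.cons i v : Fin 3 → Fin 2) a ≠ (Fin.cons i v : Fin 3 → Fin 2) b := by
    intro v hv
    obtain ⟨a, ha⟩ := Function.ne_iff.mp hv
    exact ⟨a.succ, 0, by simpa using ha⟩
  fin_cases i
  · change 0 ≤ rowSum ex 0 ∧ _
    refine ⟨by rw [row0]; norm_num, fun v hv => ?_⟩
    refine (ex_le _ (hne v hv)).trans ?_
    change 1 ≤ rowSum ex 0 / _
    rw [row0]; norm_num
  · change 0 ≤ rowSum ex 1 ∧ _
    refine ⟨by rw [row1]; norm_num, fun v hv => ?_⟩
    refine (ex_le _ (hne v hv)).trans ?_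
    change 1 ≤ rowSum ex 1 / _
    rw [row1]; norm_num

theorem app0 (x : Fin 2 → ℝ) : app ex x 0 = 10 * x 0 ^ 2 - 2 * x 0 * x 1 + x 1 ^ 2 := by
  rw [app, sum_two]
  simp [ex, Fin.sum_univ_succ, Fin.cons, Fin.prod_univ_two]
  ring

theorem app1 (x : Fin 2 → ℝ) : app ex x 1 = -x 0 ^ 2 + 2 * x 0 * x 1 + 3 * x 1 ^ 2 := by
  rw [app, sum_two]
  simp [ex, Fin.sum_univ_succ, Fin.cons, Fin.prod_univ_two]
  ring

theorem ex_no (lam : ℂ) : ¬ IsHEigenvalue ex lam := by
  rintro ⟨x, hx, h⟩
  have h0 := h 0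
  have h1 := h 1
  rw [app0] at h0
  rw [app1] at h1
  set a := x 0 with ha
  set b := x 1 with hb
  have key : ((10 * a ^ 2 - 2 * a * b + b ^ 2 : ℝ) : ℂ) * ((b ^ 2 : ℝ) : ℂ) =
      ((-a ^ 2 + 2 * a * b + 3 * b ^ 2 : ℝ) : ℂ) * ((a ^ 2 : ℝ) : ℂ) := by
    rw [h0, h1]
    push_cast
    ring
  rw [← Complex.ofReal_mul, ← Complex.ofReal_mul, Complex.ofReal_inj] at key
  have key2 : (a ^ 2 - a * b) ^ 2 + 5 * (a * b) ^ 2 + (a * b - b ^ 2) ^ 2 = 0 := by
    linarith [key, sq_nonneg (a * b)]
  have e1 : a * b = 0 := by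
    have : (a * b) ^ 2 = 0 := by
      nlinarith [sq_nonneg (a ^ 2 - a * b), sq_nonneg (a * b), sq_nonneg (a * b - b ^ 2)]
    exact pow_eq_zero_iff (two_ne_zero) |>.mp this
  have e2 : a ^ 2 = 0 := by
    have : (a ^ 2) ^ 2 = 0 := by
      rw [e1] at key2
      nlinarith [sq_nonneg (a ^ 2), sq_nonneg (b ^ 2)]
    exact pow_eq_zero_iff (two_ne_zero) |>.mp this
  have e3 : b ^ 2 = 0 := by
    have : (b ^ 2) ^ 2 = 0 := by
      rw [e1] at key2
      nlinarith [sq_nonneg (a ^ 2), sq_nonneg (b ^ 2)]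
    exact pow_eq_zero_iff (two_ne_zero) |>.mp this
  apply hx
  funext i
  fin_cases i
  · exact pow_eq_zero_iff (two_ne_zero) |>.mp e2
  · exact pow_eq_zero_iff (two_ne_zero) |>.mp e3

/-! ### Q2 -/

/-- `w` is not constant. -/
def NC {k n : ℕ} (w : Fin (k + 1) → Fin n) : Prop := ∃ a b, w a ≠ w b

theorem exists_cons {k n : ℕ} {T : Tensor k n} (hT : IsSymm T) {w : Fin (k + 1) → Fin n}
    (hw : NC w) (a : Fin (k + 1)) :
    ∃ v : Fin k → Fin n, v ≠ (fun _ => w a) ∧ T (Fin.cons (w a) v) = T w := by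
  refine ⟨fun j => w (Equiv.swap 0 a j.succ), ?_, ?_⟩
  · intro h
    obtain ⟨b, c, hbc⟩ := hw
    have : ∀ b, w b = w a := by
      intro b
      obtain ⟨b', rfl⟩ := (Equiv.swap 0 a).surjective b
      rcases Fin.eq_zero_or_eq_succ b' with rfl | ⟨j, rfl⟩
      · simp
      · exact congrFun h j
    exact hbc ((this b).trans (this c).symm)
  · rw [← hT (Equiv.swap 0 a) w]
    congr 1
    funext b
    rcases Fin.eq_zero_or_eq_succ b with rfl | ⟨j, rfl⟩
    · simp
    · simp

theorem le_row {k n : ℕ} {T : Tensor k n} (hT : IsSymm T) (hB : IsBZero T)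
    {w : Fin (k + 1) → Fin n} (hw : NC w) (a : Fin (k + 1)) :
    T w ≤ rowSum T (w a) / (n : ℝ) ^ k := by
  obtain ⟨v, hv, e⟩ := exists_cons hT hw a
  rw [← e]
  exact (hB (w a)).2 v hv

/-- The partially all one tensor of `J`. -/
noncomputable def allOne {k n : ℕ} (J : Finset (Fin n)) : Tensor k n := fun w =>
  open Classical in if ∀ a, w a ∈ J then 1 else 0

theorem app_allOne {k n : ℕ} (J : Finset (Fin n)) (x : Fin n → ℝ) (i : Fin n) :
    app (allOne J : Tensor k n) x i = if i ∈ J then (∑ j ∈ J, x j) ^ k else 0 := by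
  classical
  unfold app allOne
  split_ifs with h
  · have := Finset.prod_univ_sum (fun _ : Fin k => J) (fun _ j => x j)
    rw [Finset.prod_const, Finset.card_univ, Fintype.card_fin] at this
    rw [this, ← Finset.sum_filter_add_sum_filter_not Finset.univ
      (fun v : Fin k → Fin n => ∀ a, v a ∈ J)]
    rw [Finset.sum_eq_zero (s := Finset.filter (fun v : Fin k → Fin n => ¬ ∀ a, v a ∈ J) _),
      add_zero]
    · refine Finset.sum_congr ?_ ?_
      · ext v; simp [Fintype.mem_piFinset]
      · intro v hv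
        have hv' : ∀ a, v a ∈ J := by simpa using hv
        rw [if_pos, one_mul]
        intro a
        rcases Fin.eq_zero_or_eq_succ a with rfl | ⟨j, rfl⟩
        · simpa using h
        · simpa using hv' j
    · intro v hv
      have hv' : ¬ ∀ a, v a ∈ J := by simpa using hv
      rw [if_neg, zero_mul]
      intro h'
      exact hv' fun a => by simpa using h' a.succ
  · refine Finset.sum_eq_zero fun v _ => ?_
    rw [if_neg, zero_mul]
    intro h'
    exact h (by simpa using h' 0)

theorem rowSum_eq_app {k n : ℕ} (T : Tensor k n) (i : Fin n) :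
    rowSum T i = app T (fun _ => 1) i := by
  simp [rowSum, app]

theorem rowSum_allOne {k n : ℕ} (J : Finset (Fin n)) (i : Fin n) :
    rowSum (allOne J : Tensor k n) i = if i ∈ J then (J.card : ℝ) ^ k else 0 := by
  rw [rowSum_eq_app, app_allOne]
  simp

theorem app_sub {k n : ℕ} (T : Tensor k n) (J : Finset (Fin n)) (h : ℝ) (x : Fin n → ℝ)
    (i : Fin n) : app (fun w => T w - h * allOne J w) x i =
      app T x i - h * app (allOne J : Tensor k n) x i := by
  unfold app
  rw [Finset.mul_sum, ← Finset.sum_sub_distrib]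
  refine Finset.sum_congr rfl fun v _ => ?_
  ring

theorem app_nonneg {k n : ℕ} (hk : Even k) (x : Fin n → ℝ) (i : Fin n)
    (hi : ∀ j, |x j| ≤ |x i|) : ∀ (N : ℕ) (T : Tensor k n), IsSymm T → IsBZero T →
    (open Classical in (Finset.univ.filter fun w => NC w ∧ 0 < T w).card) ≤ N →
    0 ≤ app T x i := by
  classical
  intro N
  induction N with
  | zero =>
    intro T hT hB hN
    have hP : ∀ w, NC w → T w ≤ 0 := by
      intro w hw
      by_contra hlt
      have : w ∈ Finset.univ.filter fun w => NC w ∧ 0 < T w := by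
        simp only [Finset.mem_filter, Finset.mem_univ, true_and]
        exact ⟨hw, not_le.mp hlt⟩
      rw [Finset.card_eq_zero.mp (Nat.le_zero.mp hN)] at this
      simp at this
    have h1 : |x i| ^ k * rowSum T i ≤ app T x i := by
      unfold rowSum app
      rw [Finset.mul_sum]
      refine Finset.sum_le_sum fun v _ => ?_
      by_cases hv : v = fun _ => i
      · subst hv
        simp only [Finset.prod_const, Finset.card_univ, Fintype.card_fin]
        rw [hk.pow_abs, mul_comm]
      · have hc : NC (Fin.cons i v : Fin (k + 1) → Fin n) := by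
          obtain ⟨a, ha⟩ := Function.ne_iff.mp hv
          exact ⟨a.succ, 0, by simpa using ha⟩
        have h2 := hP _ hc
        have h3 : ∏ a, x (v a) ≤ |x i| ^ k := by
          calc ∏ a, x (v a) ≤ |∏ a, x (v a)| := le_abs_self _
            _ = ∏ a, |x (v a)| := Finset.abs_prod _ _
            _ ≤ ∏ _a : Fin k, |x i| :=
              Finset.prod_le_prod (fun a _ => abs_nonneg _) (fun a _ => hi _)
            _ = |x i| ^ k := by simp
        nlinarith
    exact (mul_nonneg (pow_nonneg (abs_nonneg _) _) (hB i).1).trans h1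
  | succ N ih =>
    intro T hT hB hN
    set P := Finset.univ.filter fun w => NC w ∧ 0 < T w with hPdef
    by_cases hP : P.Nonempty
    swap
    · refine ih T hT hB ?_
      rw [Finset.not_nonempty_iff_eq_empty] at hP
      rw [← hPdef, hP]
      simp
    obtain ⟨w0, hw0, hmin⟩ := Finset.exists_min_image P T hP
    have hmem : ∀ w, w ∈ P ↔ NC w ∧ 0 < T w := by
      intro w; simp [hPdef]
    set h := T w0 with hh
    have hpos : 0 < h := ((hmem w0).mp hw0).2
    set J : Finset (Fin n) := Finset.univ.filter fun j => ∃ w ∈ P, ∃ a, w a = j with hJ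
    have hJmem : ∀ j, j ∈ J ↔ ∃ w ∈ P, ∃ a, w a = j := by
      intro j; simp [hJ]
    set T' : Tensor k n := fun w => T w - h * allOne J w with hT'
    have hin : ∀ w, (∀ a, w a ∈ J) → T' w = T w - h := by
      intro w hw
      simp only [hT', allOne]
      rw [if_pos hw, mul_one]
    have hout : ∀ w, ¬ (∀ a, w a ∈ J) → T' w = T w := by
      intro w hw
      simp only [hT', allOne]
      rw [if_neg hw, mul_zero, sub_zero]
    have hle : ∀ w, T' w ≤ T w := by
      intro w
      by_cases hw : ∀ a, w a ∈ J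
      · rw [hin w hw]; linarith
      · rw [hout w hw]
    have hsymm : IsSymm T' := by
      intro σ w
      by_cases hw : ∀ a, w a ∈ J
      · rw [hin w hw, hin (w ∘ σ) (fun a => hw _), hT]
      · rw [hout w hw, hout (w ∘ σ), hT]
        intro h'
        refine hw fun a => ?_
        simpa using h' (σ⁻¹ a)
    have hrow : ∀ j, rowSum T' j = rowSum T j - h * (if j ∈ J then (J.card : ℝ) ^ k else 0) := by
      intro j
      rw [rowSum_eq_app, hT', app_sub, ← rowSum_eq_app, ← rowSum_eq_app, rowSum_allOne]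
    have hn : ∀ j : Fin n, (0 : ℝ) < (n : ℝ) ^ k := by
      intro j
      have : 0 < n := lt_of_le_of_lt (Nat.zero_le _) j.2
      positivity
    have hcard : (J.card : ℝ) ^ k ≤ (n : ℝ) ^ k := by
      refine pow_le_pow_left₀ (by positivity) ?_ k
      have := J.card_le_univ
      rw [Fintype.card_fin] at this
      exact_mod_cast this
    have hrow1 : ∀ j, j ∈ J → (n : ℝ) ^ k * h ≤ rowSum T j := by
      intro j hj
      obtain ⟨w, hw, a, rfl⟩ := (hJmem j).mp hj
      have h1 := le_row hT hB ((hmem w).mp hw).1 a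
      have h2 := hmin w hw
      rw [le_div_iff₀ (hn (w a))] at h1
      have := hn (w a)
      nlinarith
    have hrow2 : ∀ j, j ∈ J → rowSum T j - (n : ℝ) ^ k * h ≤ rowSum T' j := by
      intro j hj
      rw [hrow, if_pos hj]
      nlinarith
    have hB0 : ∀ j, 0 ≤ rowSum T' j := by
      intro j
      by_cases hj : j ∈ J
      · linarith [hrow1 j hj, hrow2 j hj]
      · rw [hrow, if_neg hj]
        linarith [(hB j).1]
    have hB' : IsBZero T' := by
      intro j
      refine ⟨hB0 j, fun v hv => ?_⟩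
      have hc : NC (Fin.cons j v : Fin (k + 1) → Fin n) := by
        obtain ⟨a, ha⟩ := Function.ne_iff.mp hv
        exact ⟨a.succ, 0, by simpa using ha⟩
      by_cases hw : ∀ a, (Fin.cons j v : Fin (k + 1) → Fin n) a ∈ J
      · have hj : j ∈ J := by simpa using hw 0
        rw [hin _ hw, le_div_iff₀ (hn j)]
        have h1 := (hB j).2 v hv
        rw [le_div_iff₀ (hn j)] at h1
        have h2 := hrow2 j hj
        linarith
      · rw [hout _ hw]
        have h1 : T (Fin.cons j v) ≤ 0 := by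
          by_contra hlt
          refine hw fun a => (hJmem _).mpr ⟨_, (hmem _).mpr ⟨hc, not_le.mp hlt⟩, a, rfl⟩
        exact h1.trans (div_nonneg (hB0 j) (hn j).le)
    have hcardP : (Finset.univ.filter fun w => NC w ∧ 0 < T' w).card ≤ N := by
      have hss : (Finset.univ.filter fun w => NC w ∧ 0 < T' w) ⊂ P := by
        rw [Finset.ssubset_iff_of_subset]
        · refine ⟨w0, hw0, ?_⟩
          simp only [Finset.mem_filter, Finset.mem_univ, true_and, not_and, not_lt]
          intro _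
          rw [hin w0 fun a => (hJmem _).mpr ⟨w0, hw0, a, rfl⟩]
          simp [hh]
        · intro w hw
          simp only [Finset.mem_filter, Finset.mem_univ, true_and] at hw
          exact (hmem w).mpr ⟨hw.1, hw.2.trans_le (hle w)⟩
      have := Finset.card_lt_card hss
      omega
    have h1 := ih T' hsymm hB' hcardP
    have h2 : app T' x i = app T x i - h * app (allOne J : Tensor k n) x i := app_sub T J h x i
    have h3 : 0 ≤ app (allOne J : Tensor k n) x i := by
      rw [app_allOne]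
      split_ifs
      · exact hk.pow_nonneg _
      · exact le_rfl
    have h4 := mul_nonneg hpos.le h3
    linarith

theorem nonneg {k n : ℕ} (hk : Even k) (T : Tensor k n) (hT : IsSymm T) (hB : IsBZero T)
    (lam : ℂ) (hl : IsHEigenvalue T lam) : ∃ r : ℝ, 0 ≤ r ∧ lam = r := by
  obtain ⟨x, hx, h⟩ := hl
  obtain ⟨j, hj⟩ := Function.ne_iff.mp hx
  obtain ⟨i, -, hi⟩ := Finset.exists_max_image Finset.univ (fun j => |x j|) ⟨j, Finset.mem_univ j⟩
  have hi' : ∀ j, |x j| ≤ |x i| := fun j => hi j (Finset.mem_univ j)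
  have hxi : x i ≠ 0 := by
    intro h0
    have := hi' j
    rw [h0, abs_zero] at this
    exact hj (abs_eq_zero.mp (le_antisymm this (abs_nonneg _)))
  have h1 := app_nonneg hk x i hi' _ T hT hB le_rfl
  have h2 := h i
  have h3 : 0 < x i ^ k := hk.pow_pos hxi
  refine ⟨app T x i / x i ^ k, div_nonneg h1 h3.le, ?_⟩
  push_cast
  rw [h2, mul_div_assoc, div_self, mul_one]
  exact_mod_cast h3.ne'

/-- **Q1 has a negative answer, Q2 a positive one.** -/
theorem result :
    (∃ (k n : ℕ) (T : Tensor k n), Odd (k + 1) ∧ 3 ≤ k + 1 ∧ 1 ≤ n ∧ IsSymm T ∧ IsBZero T ∧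
      ∀ lam : ℂ, ¬ IsHEigenvalue T lam) ∧
    (∀ (k n : ℕ) (T : Tensor k n), Odd (k + 1) → 3 ≤ k + 1 → IsSymm T → IsBZero T →
      ∀ lam : ℂ, IsHEigenvalue T lam → ∃ r : ℝ, 0 ≤ r ∧ lam = r) := by
  refine ⟨⟨2, 2, ex, by decide, by norm_num, by norm_num, ex_symm, ex_bzero, ex_no⟩, ?_⟩
  intro k n T hk _ hT hB lam hl
  refine nonneg ?_ T hT hB lam hl
  exact (Nat.odd_add_one.mp hk |> Nat.not_odd_iff_even.mp)

end Pool.Agent.Results.MP_9e9eb1_al.OddBZero
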